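import Mathlib

/-!
# Corona plus ker is at most twice the independence number plus the number of odd cycles
-/

set_option autoImplicit false

open Finset

namespace Pool.Agent.Results.MP_7e5e3f_co.CoronaKerOddCycles

variable {V : Type*}

/-- `S` is a maximum independent set of `G`. -/
def IsMaxIndep (G : SimpleGraph V) (S : Finset V) : Prop :=
  G.IsIndepSet (S : Set V) ∧ S.card = G.indepNum

/-- `corona(G)`: the union of all maximum independent sets. -/
def corona (G : SimpleGraph V) : Set V := {v | ∃ S, IsMaxIndep G S ∧ v ∈ S}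

/-- `N(X)`: the set of the vertices adjacent to at least one vertex of `X`. -/
def nbhd (G : SimpleGraph V) (X : Finset V) : Set V := {w | ∃ x ∈ X, G.Adj x w}

/-- `d_G(X) = |X| - |N(X)|`. -/
noncomputable def dif (G : SimpleGraph V) (X : Finset V) : ℤ := (X.card : ℤ) - ((nbhd G X).ncard : ℤ)

/-- `X` is a critical independent set: an independent set maximizing `d_G`. -/
def IsCritical (G : SimpleGraph V) (X : Finset V) : Prop :=
  G.IsIndepSet (X : Set V) ∧ ∀ Y : Finset V, G.IsIndepSet (Y : Set V) → dif G Y ≤ dif G X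

/-- `ker(G)`: the intersection of all critical independent sets. -/
def ker (G : SimpleGraph V) : Set V := {v | ∀ X, IsCritical G X → v ∈ X}

/-- The edge sets of the odd cycles of `G`. -/
def oddCycles (G : SimpleGraph V) : Set (Set (Sym2 V)) :=
  {c | ∃ (v : V) (w : G.Walk v v), w.IsCycle ∧ Odd w.length ∧ c = {e | e ∈ w.edges}}

/-! ### A graph which is not bipartite has an odd cycle -/

section OddCycle

variable {G : SimpleGraph V}

/-- there is a walk of length `n` from `u` to `v` -/
def HW (G : SimpleGraph V) (n : ℕ) (u v : V) : Prop := ∃ p : G.Walk u v, p.length = n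

structure MinOdd (G : SimpleGraph V) (g : ℕ) (c : ℕ → V) : Prop where
  adj : ∀ i < g, G.Adj (c i) (c (i+1))
  closed : c g = c 0
  odd : Odd g
  min : ∀ n, Odd n → n < g → ∀ v, ¬ HW G n v v

lemma HW.refl (u : V) : HW G 0 u u := ⟨SimpleGraph.Walk.nil, rfl⟩

lemma HW.of_adj {u v : V} (h : G.Adj u v) : HW G 1 u v :=
  ⟨SimpleGraph.Walk.cons h SimpleGraph.Walk.nil, rfl⟩

lemma HW.trans {a b : ℕ} {u v w : V} (h1 : HW G a u v) (h2 : HW G b v w) : HW G (a + b) u w := by
  obtain ⟨p, hp⟩ := h1
  obtain ⟨q, hq⟩ := h2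
  exact ⟨p.append q, by rw [SimpleGraph.Walk.length_append, hp, hq]⟩

lemma HW.symm {a : ℕ} {u v : V} (h1 : HW G a u v) : HW G a v u := by
  obtain ⟨p, hp⟩ := h1
  exact ⟨p.reverse, by rw [SimpleGraph.Walk.length_reverse, hp]⟩

lemma HW_seg (c : ℕ → V) (g : ℕ) (hc : ∀ i < g, G.Adj (c i) (c (i+1))) (i : ℕ) (d : ℕ)
    (h : i + d ≤ g) : HW G d (c i) (c (i + d)) := by
  induction d with
  | zero => exact HW.refl _
  | succ d ih =>
    have h1 := ih (by omega)
    exact h1.trans (HW.of_adj (hc (i+d) (by omega)))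

namespace MinOdd
variable {g : ℕ} {c : ℕ → V}

lemma arc1 (M : MinOdd G g c) {i j : ℕ} (hij : i ≤ j) (hj : j ≤ g) : HW G (j - i) (c i) (c j) := by
  have w1 := HW_seg c g M.adj i (j - i) (by omega)
  rwa [show i + (j - i) = j by omega] at w1

lemma arc2 (M : MinOdd G g c) {i j : ℕ} (hij : i ≤ j) (hj : j ≤ g) :
    HW G (g - (j - i)) (c i) (c j) := by
  have w2 := M.arc1 hj le_rfl
  rw [M.closed] at w2
  have w3 := M.arc1 (Nat.zero_le i) (hij.trans hj)
  have w4 := (w2.trans w3).symm
  rwa [show g - j + (i - 0) = g - (j - i) by omega] at w4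

lemma inj (M : MinOdd G g c) {i j : ℕ} (hij : i < j) (hj : j < g) : c i ≠ c j := by
  intro heq
  have w1 := M.arc1 hij.le hj.le
  have w2 := M.arc2 hij.le hj.le
  rw [← heq] at w1 w2
  obtain ⟨b, hb⟩ := M.odd
  rcases Nat.even_or_odd (j - i) with ⟨a, ha⟩ | ho
  · exact M.min (g - (j - i)) ⟨b - a, by omega⟩ (by omega) _ w2
  · exact M.min (j - i) ho (by omega) _ w1

end MinOdd

/-- a graph which is not `2`-colourable has an odd cycle -/
theorem exists_odd_cycle (h : ¬ G.Colorable 2) :
    ∃ (v : V) (p : G.Walk v v), p.IsCycle ∧ Odd p.length := by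
  classical
  rw [SimpleGraph.two_colorable_iff_forall_loop_even] at h
  push Not at h
  obtain ⟨u, w, hw⟩ := h
  have hex : ∃ n, Odd n ∧ ∃ v, HW G n v v := ⟨w.length, by simpa using hw, u, w, rfl⟩
  obtain ⟨hodd, v', p, hp⟩ := Nat.find_spec hex
  set g := Nat.find hex with hg
  have M : MinOdd G g p.getVert := by
    constructor
    · intro i hi
      exact p.adj_getVert_succ (by rw [hp]; exact hi)
    · rw [← hp]; simp
    · exact hodd
    · intro n hn hlt v hv
      exact Nat.find_min hex hlt ⟨hn, v, hv⟩
  refine ⟨v', p, ?_, by rw [hp]; exact M.odd⟩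
  have h3g : 3 ≤ g := by
    obtain ⟨b, hb⟩ := M.odd
    rcases Nat.lt_or_ge g 3 with h | h
    · have hg1 : g = 1 := by omega
      have := M.adj 0 (by omega)
      have h2 := M.closed
      rw [hg1] at h2
      simp only [zero_add] at this
      rw [h2] at this
      exact absurd rfl this.ne
    · exact h
  rw [SimpleGraph.Walk.isCycle_iff_isPath_tail_and_le_length]
  have hnil : ¬ p.Nil := by
    intro hn
    have := SimpleGraph.Walk.length_eq_zero_iff.mpr hn
    omega
  have htl := SimpleGraph.Walk.length_tail_add_one hnil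
  refine ⟨?_, by omega⟩
  rw [← SimpleGraph.Walk.IsPath.getVert_injOn_iff]
  intro a ha b hb hab
  simp only [Set.mem_ofPred_eq] at ha hb
  rw [SimpleGraph.Walk.getVert_tail, SimpleGraph.Walk.getVert_tail] at hab
  have key : ∀ a b, a < b → b ≤ p.tail.length → p.getVert (a+1) ≠ p.getVert (b+1) := by
    intro a b hab hb
    rcases Nat.lt_or_ge (b+1) g with h1 | h1
    · exact M.inj (by omega) h1
    · have hbl : b + 1 = g := by omega
      rw [hbl, M.closed]
      exact (M.inj (by omega) (by omega)).symm
  by_contra hne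
  rcases lt_or_gt_of_ne hne with h1 | h1
  · exact key a b h1 hb hab
  · exact key b a h1 ha hab.symm

end OddCycle

/-! ### The bound -/

section Bound

variable [Fintype V]

/-- there is a critical independent set of smallest size; it lies in all maximum independent
sets -/
theorem exists_small_critical (G : SimpleGraph V) :
    ∃ K : Finset V, IsCritical G K ∧ ∀ S, IsMaxIndep G S → K ⊆ S := by
  classical
  -- a critical independent set
  obtain ⟨K0, hK0, hmax⟩ := Finset.exists_max_image
    (Finset.univ.filter (fun X : Finset V => G.IsIndepSet (X : Set V))) (dif G)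
    ⟨∅, by simp [SimpleGraph.isIndepSet_iff, Set.Pairwise]⟩
  have hcrit0 : IsCritical G K0 :=
    ⟨(Finset.mem_filter.1 hK0).2, fun Y hY => hmax Y (Finset.mem_filter.2 ⟨Finset.mem_univ _, hY⟩)⟩
  obtain ⟨K, hK, hmin⟩ := Finset.exists_min_image
    (Finset.univ.filter (fun X : Finset V => IsCritical G X)) Finset.card
    ⟨K0, Finset.mem_filter.2 ⟨Finset.mem_univ _, hcrit0⟩⟩
  have hKc : IsCritical G K := (Finset.mem_filter.1 hK).2
  refine ⟨K, hKc, ?_⟩
  intro S hS
  by_contra hsub
  set K1 := K ∩ S with hK1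
  set K2 := K \ S with hK2
  have hcard : K1.card + K2.card = K.card := Finset.card_inter_add_card_sdiff K S
  have hK2ne : 0 < K2.card := by
    rw [Finset.card_pos]
    obtain ⟨x, hx, hxS⟩ := Finset.not_subset.1 hsub
    exact ⟨x, Finset.mem_sdiff.2 ⟨hx, hxS⟩⟩
  have hK1ind : G.IsIndepSet (K1 : Set V) :=
    hKc.1.mono (by intro x hx; exact (Finset.mem_inter.1 hx).1)
  have hlt : dif G K1 < dif G K := by
    rcases lt_or_eq_of_le (hKc.2 K1 hK1ind) with h | h
    · exact h
    · exfalso
      have : IsCritical G K1 := ⟨hK1ind, fun Y hY => h ▸ hKc.2 Y hY⟩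
      have := hmin K1 (Finset.mem_filter.2 ⟨Finset.mem_univ _, this⟩)
      omega
  -- the neighbourhoods
  have hN1 : (nbhd G K).ncard = (nbhd G K1).ncard + (nbhd G K \ nbhd G K1).ncard := by
    rw [add_comm, Set.ncard_sdiff_add_ncard_of_subset]
    rintro w ⟨x, hx, hxw⟩
    exact ⟨x, (Finset.mem_inter.1 hx).1, hxw⟩
  have hltN : (nbhd G K \ nbhd G K1).ncard < K2.card := by
    unfold dif at hlt
    omega
  -- exchange
  set R : Finset V := S.filter (fun w => w ∈ nbhd G K2) with hR
  have hRcard : R.card ≤ (nbhd G K \ nbhd G K1).ncard := by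
    rw [← Set.ncard_coe_finset]
    refine Set.ncard_le_ncard ?_ (Set.toFinite _)
    intro w hw
    rw [Finset.mem_coe, hR, Finset.mem_filter] at hw
    obtain ⟨hwS, x, hx, hxw⟩ := hw
    refine ⟨⟨x, (Finset.mem_sdiff.1 hx).1, hxw⟩, ?_⟩
    rintro ⟨y, hy, hyw⟩
    exact hS.1 (Finset.mem_coe.2 (Finset.mem_inter.1 hy).2) (Finset.mem_coe.2 hwS) hyw.ne hyw
  set S' := (S \ R) ∪ K2 with hS'
  have hdisj : Disjoint (S \ R) K2 := by
    rw [Finset.disjoint_left]
    intro x hx hx2
    exact (Finset.mem_sdiff.1 hx2).2 (Finset.mem_sdiff.1 hx).1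
  have hS'ind : G.IsIndepSet (S' : Set V) := by
    intro x hx y hy hxy hadj
    rw [Finset.mem_coe, hS', Finset.mem_union] at hx hy
    have hcrossR : ∀ a b, a ∈ S \ R → b ∈ K2 → ¬ G.Adj b a := by
      intro a b ha hb hab
      rw [Finset.mem_sdiff] at ha
      exact ha.2 (Finset.mem_filter.2 ⟨ha.1, b, hb, hab⟩)
    rcases hx with hx | hx <;> rcases hy with hy | hy
    · exact hS.1 (Finset.mem_coe.2 (Finset.mem_sdiff.1 hx).1)
        (Finset.mem_coe.2 (Finset.mem_sdiff.1 hy).1) hxy hadj
    · exact hcrossR x y hx hy hadj.symm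
    · exact hcrossR y x hy hx hadj
    · exact hKc.1 (Finset.mem_coe.2 (Finset.mem_sdiff.1 hx).1)
        (Finset.mem_coe.2 (Finset.mem_sdiff.1 hy).1) hxy hadj
  have hle := hS'ind.card_le_indepNum
  rw [hS', Finset.card_union_of_disjoint hdisj,
    Finset.card_sdiff_of_subset (show R ⊆ S from Finset.filter_subset _ _), ← hS.2] at hle
  have := Finset.card_le_card (show R ⊆ S from Finset.filter_subset _ _)
  omega

/-- If deleting the vertices of `X` leaves a bipartite graph, then
`|corona| + |ker| ≤ 2 α + |X|`. -/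
theorem bound_transversal (G : SimpleGraph V) (X : Finset V)
    (hX : (G.induce {v | v ∉ X}).IsBipartite) :
    (corona G).ncard + (ker G).ncard ≤ 2 * G.indepNum + X.card := by
  classical
  obtain ⟨K, hK, hKS⟩ := exists_small_critical G
  set N : Finset V := Finset.univ.filter (fun w => w ∈ nbhd G K) with hN
  have hNc : (nbhd G K).ncard = N.card := by
    rw [← Set.ncard_coe_finset]
    congr 1
    ext w
    simp [hN]
  -- corona avoids N
  have h1 : (corona G).ncard + N.card ≤ Fintype.card V := by
    have hc : corona G ⊆ ((Nᶜ : Finset V) : Set V) := by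
      rintro v ⟨S, hS, hv⟩
      rw [Finset.mem_coe, Finset.mem_compl, hN, Finset.mem_filter]
      rintro ⟨-, x, hx, hxv⟩
      exact hS.1 (Finset.mem_coe.2 (hKS S hS hx)) (Finset.mem_coe.2 hv) hxv.ne hxv
    have := Set.ncard_le_ncard hc (Set.toFinite _)
    rw [Set.ncard_coe_finset, Finset.card_compl] at this
    have := Finset.card_le_univ N
    omega
  have h2 : (ker G).ncard ≤ K.card := by
    rw [← Set.ncard_coe_finset]
    exact Set.ncard_le_ncard (fun v hv => hv K hK) (Set.toFinite _)
  -- colour classes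
  obtain ⟨c⟩ := hX
  set W : Finset V := Finset.univ.filter (fun v => v ∉ K ∧ v ∉ N ∧ v ∉ X) with hW
  let col : V → Fin 2 := fun v => if h : v ∉ X then c ⟨v, h⟩ else 0
  have hcol : ∀ x y, x ∈ W → y ∈ W → G.Adj x y → col x ≠ col y := by
    intro x y hx hy hadj
    rw [hW, Finset.mem_filter] at hx hy
    have hx' : x ∉ X := hx.2.2.2
    have hy' : y ∉ X := hy.2.2.2
    simp only [col, dif_pos hx', dif_pos hy']
    exact c.valid (v := ⟨x, hx'⟩) (w := ⟨y, hy'⟩) hadj
  have hind : ∀ b : Fin 2, G.IsIndepSet ((K ∪ W.filter (fun v => col v = b) : Finset V) : Set V) := by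
    intro b x hx y hy hxy hadj
    have hKW : ∀ a d, a ∈ K → d ∈ W → ¬ G.Adj a d := by
      intro a d ha hd hadj
      rw [hW, Finset.mem_filter] at hd
      exact hd.2.2.1 (by rw [hN, Finset.mem_filter]; exact ⟨Finset.mem_univ _, a, ha, hadj⟩)
    rw [Finset.mem_coe, Finset.mem_union, Finset.mem_filter] at hx hy
    rcases hx with hx | hx <;> rcases hy with hy | hy
    · exact hK.1 (Finset.mem_coe.2 hx) (Finset.mem_coe.2 hy) hxy hadj
    · exact hKW x y hx hy.1 hadj
    · exact hKW y x hy hx.1 hadj.symm
    · exact hcol x y hx.1 hy.1 hadj (hx.2.trans hy.2.symm)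
  have hcardb : ∀ b : Fin 2, K.card + (W.filter (fun v => col v = b)).card ≤ G.indepNum := by
    intro b
    have := (hind b).card_le_indepNum
    rwa [Finset.card_union_of_disjoint] at this
    rw [Finset.disjoint_left]
    intro x hx hx2
    rw [Finset.mem_filter, hW, Finset.mem_filter] at hx2
    exact hx2.1.2.1 hx
  have hWc : W.card = (W.filter (fun v => col v = 0)).card + (W.filter (fun v => col v = 1)).card := by
    rw [Finset.card_eq_sum_card_fiberwise (f := col) (t := Finset.univ)
      (fun _ _ => Finset.mem_coe.2 (Finset.mem_univ _)), Fin.sum_univ_two]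
  -- all vertices
  have huniv : Fintype.card V ≤ K.card + N.card + W.card + X.card := by
    rw [← Finset.card_univ]
    calc (Finset.univ : Finset V).card ≤ (K ∪ N ∪ W ∪ X).card := by
          apply Finset.card_le_card
          intro v _
          simp only [Finset.mem_union, hW, Finset.mem_filter, Finset.mem_univ, true_and]
          tauto
      _ ≤ (K ∪ N ∪ W).card + X.card := Finset.card_union_le _ _
      _ ≤ (K ∪ N).card + W.card + X.card := by
          have := Finset.card_union_le (K ∪ N) W
          omega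
      _ ≤ K.card + N.card + W.card + X.card := by
          have := Finset.card_union_le K N
          omega
  have := hcardb 0
  have := hcardb 1
  omega

/-- Choosing a vertex on every odd cycle gives a set meeting all odd cycles. -/
theorem exists_transversal (G : SimpleGraph V) :
    ∃ X : Finset V, X.card ≤ (oddCycles G).ncard ∧ (G.induce {v | v ∉ X}).IsBipartite := by
  classical
  have hex : ∀ c : Set (Sym2 V), c ∈ oddCycles G → ∃ v : V, ∃ e ∈ c, v ∈ e := by
    rintro c ⟨v, w, hw, hodd, rfl⟩
    cases w with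
    | nil => simp at hodd
    | @cons _ b _ h p => exact ⟨v, s(v, b), by simp, Sym2.mem_mk_left _ _⟩
  -- the vertices chosen must lie on the cycle
  let f : Set (Sym2 V) → Option V := fun c =>
    if h : c ∈ oddCycles G then some (hex c h).choose else none
  have hfin : (oddCycles G).Finite := Set.toFinite _
  refine ⟨(hfin.toFinset.image f).eraseNone, ?_, ?_⟩
  · calc ((hfin.toFinset.image f).eraseNone).card ≤ (hfin.toFinset.image f).card := by
          exact Finset.card_eraseNone_le _
      _ ≤ hfin.toFinset.card := Finset.card_image_le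
      _ = (oddCycles G).ncard := (Set.ncard_eq_toFinset_card _ hfin).symm
  · by_contra hcol
    obtain ⟨v, p, hp, hodd⟩ := exists_odd_cycle hcol
    set ι := (SimpleGraph.Embedding.induce (G := G)
      {v | v ∉ (hfin.toFinset.image f).eraseNone}) with hι
    set q := p.map ι.toHom with hq
    have hqc : q.IsCycle := hp.map ι.injective
    have hmem : {e | e ∈ q.edges} ∈ oddCycles G :=
      ⟨_, q, hqc, by rw [hq, SimpleGraph.Walk.length_map]; exact hodd, rfl⟩
    obtain ⟨e, he, hve⟩ := (hex _ hmem).choose_spec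
    set x := (hex _ hmem).choose with hx
    have hxX : x ∈ (hfin.toFinset.image f).eraseNone := by
      rw [Finset.mem_eraseNone, Finset.mem_image]
      exact ⟨_, hfin.mem_toFinset.2 hmem, by simp only [f, dif_pos hmem, hx]⟩
    have hxs : x ∈ q.support := q.mem_support_of_mem_edges he hve
    rw [hq, SimpleGraph.Walk.support_map, List.mem_map] at hxs
    obtain ⟨y, -, hy⟩ := hxs
    have : (y : V) = x := hy
    exact y.2 (this ▸ hxX)

/-- **Full answer to Q1.** For every finite graph `G`,
`|corona(G)| + |ker(G)| ≤ 2 α(G) + k` where `k` is the number of odd cycles of `G`. More precisely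
`k` can be replaced by the size of every set of vertices whose deletion leaves a bipartite
graph. -/
theorem result {V : Type*} [Fintype V] (G : SimpleGraph V) :
    (corona G).ncard + (ker G).ncard ≤ 2 * G.indepNum + (oddCycles G).ncard ∧
    ∀ X : Finset V, (G.induce {v | v ∉ X}).IsBipartite →
      (corona G).ncard + (ker G).ncard ≤ 2 * G.indepNum + X.card := by
  refine ⟨?_, bound_transversal G⟩
  obtain ⟨X, hX, hb⟩ := exists_transversal G
  exact (bound_transversal G X hb).trans (Nat.add_le_add_left hX _)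

end Bound

end Pool.Agent.Results.MP_7e5e3f_co.CoronaKerOddCycles
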